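import Mathlib

namespace Pool.Agent.Results.MP_909498_an.NoBoundedOrbit

open MeasureTheory Filter Topology
open scoped InnerProductSpace

section defs

variable {H : Type*} [NormedAddCommGroup H] [InnerProductSpace ℂ H] {ι : Type*}

/-- `f` is a frame sequence: frame inequalities hold on the closed linear span of `f`. -/
def IsFrameSequence (f : ι → H) : Prop :=
  ∃ A B : ℝ, 0 < A ∧ 0 < B ∧ ∀ x ∈ (Submodule.span ℂ (Set.range f)).topologicalClosure,
    Summable (fun k => ‖⟪x, f k⟫_ℂ‖ ^ 2) ∧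
    A * ‖x‖ ^ 2 ≤ ∑' k, ‖⟪x, f k⟫_ℂ‖ ^ 2 ∧ ∑' k, ‖⟪x, f k⟫_ℂ‖ ^ 2 ≤ B * ‖x‖ ^ 2

/-- `f` is a Riesz basis of its closed linear span. -/
def IsRieszSequence (f : ι → H) : Prop :=
  ∃ A B : ℝ, 0 < A ∧ 0 < B ∧ ∀ c : ι →₀ ℂ,
    A * (c.sum fun _ z => ‖z‖ ^ 2) ≤ ‖c.sum fun k z => z • f k‖ ^ 2 ∧
    ‖c.sum fun k z => z • f k‖ ^ 2 ≤ B * (c.sum fun _ z => ‖z‖ ^ 2)

end defs

/-- Translation `(T_a f)(x) = f (x - a)` on `L²(ℝ)`. -/
noncomputable def trans (a : ℝ) : Lp ℂ 2 (volume : Measure ℝ) →ₗᵢ[ℂ] Lp ℂ 2 (volume : Measure ℝ) :=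
  Lp.compMeasurePreservingₗᵢ ℂ (fun x => x - a) (measurePreserving_sub_right volume a)

section abstract

variable {H : Type*} [NormedAddCommGroup H] [InnerProductSpace ℂ H] [CompleteSpace H]

lemma two_toReal : (2 : ENNReal).toReal = 2 := by norm_num

lemma norm_sq_tsum (f : lp (fun _ : ℕ => ℂ) 2) : ‖f‖ ^ 2 = ∑' i, ‖f i‖ ^ 2 := by
  have h := lp.norm_rpow_eq_tsum (p := 2) (by norm_num) f
  rw [two_toReal] at h
  simp only [Real.rpow_two] at h
  exact h

lemma summable_sq (f : lp (fun _ : ℕ => ℂ) 2) : Summable fun i => ‖f i‖ ^ 2 := by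
  have h := (lp.memℓp f).summable (by norm_num)
  rw [two_toReal] at h
  simp only [Real.rpow_two] at h
  exact h

/-- unit vectors -/
noncomputable def e (k : ℕ) : lp (fun _ : ℕ => ℂ) 2 := lp.single 2 k (1 : ℂ)

lemma inner_e (k : ℕ) (r : lp (fun _ : ℕ => ℂ) 2) : ⟪e k, r⟫_ℂ = r k := by
  rw [e, lp.inner_single_left]
  simp

lemma norm_e (k : ℕ) : ‖e k‖ = 1 := by
  rw [e, lp.norm_single (by norm_num)]
  simp

/-- The abstract statement. -/
theorem core (g : ℤ → H) (hg0 : g 0 ≠ 0) (T : ℤ → H →ₗᵢ[ℂ] H)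
    (hT : ∀ n m, T n (g m) = g (m + n)) (hinv : ∀ n x, T n (T (-n) x) = x)
    (hframe : IsFrameSequence g) (hnR : ¬ IsRieszSequence g) (σ : ℕ ≃ ℤ) :
    ¬ ∃ V : Submodule.span ℂ (Set.range (g ∘ σ)) →L[ℂ] H,
      ∀ k : ℕ, V ⟨g (σ k), Submodule.subset_span ⟨k, rfl⟩⟩ = g (σ (k + 1)) := by
  rintro ⟨V, hV⟩
  obtain ⟨A, B, hA, hB, hAB⟩ := hframe
  set K : Submodule ℂ H := (Submodule.span ℂ (Set.range g)).topologicalClosure with hK
  have hKclosed : IsClosed (K : Set H) := Submodule.isClosed_topologicalClosure _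
  have hgK : ∀ n, g n ∈ K := fun n =>
    Submodule.le_topologicalClosure _ (Submodule.subset_span ⟨n, rfl⟩)
  have : CompleteSpace K := hKclosed.completeSpace_coe
  -- the analysis operator
  have hmem : ∀ x : K, Memℓp (fun k : ℕ => ⟪g (σ k), (x : H)⟫_ℂ) 2 := by
    intro x
    refine memℓp_gen ?_
    rw [two_toReal]
    simp only [Real.rpow_two]
    have h1 := (hAB x x.2).1
    have h2 := (Equiv.summable_iff σ).2 h1
    refine h2.congr fun k => ?_
    simp only [Function.comp_apply]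
    rw [norm_inner_symm]
  let C : K →ₗ[ℂ] lp (fun _ : ℕ => ℂ) 2 :=
    { toFun := fun x => ⟨fun k => ⟪g (σ k), (x : H)⟫_ℂ, hmem x⟩
      map_add' := by
        intro x y
        ext k
        show ⟪g (σ k), ((x + y : K) : H)⟫_ℂ = ⟪g (σ k), (x : H)⟫_ℂ + ⟪g (σ k), (y : H)⟫_ℂ
        rw [Submodule.coe_add, inner_add_right]
      map_smul' := by
        intro c x
        ext k
        show ⟪g (σ k), ((c • x : K) : H)⟫_ℂ = c * ⟪g (σ k), (x : H)⟫_ℂ
        rw [Submodule.coe_smul, inner_smul_right] }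
  have hCapply : ∀ x k, C x k = ⟪g (σ k), (x : H)⟫_ℂ := fun x k => rfl
  have hCnorm : ∀ x : K, ‖C x‖ ^ 2 = ∑' n : ℤ, ‖⟪(x : H), g n⟫_ℂ‖ ^ 2 := by
    intro x
    rw [norm_sq_tsum, ← Equiv.tsum_eq σ]
    refine tsum_congr fun k => ?_
    rw [hCapply, norm_inner_symm]
  have hCA : ∀ x : K, A * ‖x‖ ^ 2 ≤ ‖C x‖ ^ 2 := fun x => by
    rw [hCnorm]; exact (hAB x x.2).2.1
  have hCB : ∀ x : K, ‖C x‖ ^ 2 ≤ B * ‖x‖ ^ 2 := fun x => by
    rw [hCnorm]; exact (hAB x x.2).2.2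
  have hCA' : ∀ x : K, √A * ‖x‖ ≤ ‖C x‖ := fun x => by
    have h1 := Real.sqrt_le_sqrt (hCA x)
    rwa [Real.sqrt_mul hA.le, Real.sqrt_sq (norm_nonneg _), Real.sqrt_sq (norm_nonneg _)] at h1
  have hCB' : ∀ x : K, ‖C x‖ ≤ √B * ‖x‖ := fun x => by
    have h1 := Real.sqrt_le_sqrt (hCB x)
    rwa [Real.sqrt_mul hB.le, Real.sqrt_sq (norm_nonneg _), Real.sqrt_sq (norm_nonneg _)] at h1
  let C' : K →L[ℂ] lp (fun _ : ℕ => ℂ) 2 := C.mkContinuous (√B) hCB'
  have hC' : ∀ x, C' x = C x := fun x => rfl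
  set R : Submodule ℂ (lp (fun _ : ℕ => ℂ) 2) := LinearMap.range C with hR
  have hRclosed : IsClosed (R : Set (lp (fun _ : ℕ => ℂ) 2)) := by
    have hanti : AntilipschitzWith (Real.toNNReal (√A)⁻¹) C' := by
      refine C'.antilipschitz_of_bound ?_
      intro x
      rw [Real.coe_toNNReal _ (by positivity), hC']
      have h1 := hCA' x
      have hsA : 0 < √A := Real.sqrt_pos.2 hA
      rw [inv_mul_eq_div, le_div_iff₀ hsA]
      linarith
    have h2 := hanti.isClosed_range C'.uniformContinuous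
    rw [hR, LinearMap.coe_range]
    exact h2
  have hRcomplete : CompleteSpace R := hRclosed.completeSpace_coe
  let P : lp (fun _ : ℕ => ℂ) 2 →L[ℂ] lp (fun _ : ℕ => ℂ) 2 := R.starProjection
  have hPmem : ∀ u, P u ∈ R := fun u => Submodule.starProjection_apply_mem R u
  have hPid : ∀ r ∈ R, P r = r := fun r hr => Submodule.starProjection_eq_self_iff.2 hr
  have hPsymm : ∀ u v, ⟪P u, v⟫_ℂ = ⟪u, P v⟫_ℂ := fun u v =>
    Submodule.inner_starProjection_left_eq_right R u v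
  have hPcoord : ∀ k r, r ∈ R → r k = ⟪P (e k), r⟫_ℂ := by
    intro k r hr
    rw [hPsymm, hPid r hr, inner_e]
  have hPself : ∀ k, (P (e k)) k = ((‖P (e k)‖ ^ 2 : ℝ) : ℂ) := by
    intro k
    rw [hPcoord k _ (hPmem _), inner_self_eq_norm_sq_to_K]
    push_cast
    rfl
  have hTK : ∀ n, ∀ x ∈ K, T n x ∈ K := by
    intro n
    have h1 : K ≤ K.comap (T n).toLinearMap := by
      rw [hK]
      refine Submodule.topologicalClosure_minimal _ ?_ ?_
      · refine Submodule.span_le.2 ?_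
        rintro _ ⟨m, rfl⟩
        show T n (g m) ∈ K
        rw [hT]
        exact hgK _
      · exact hKclosed.preimage (T n).continuous
    intro x hx
    exact h1 hx
  have hTadj : ∀ n (x y : H), ⟪y, T (-n) x⟫_ℂ = ⟪T n y, x⟫_ℂ := by
    intro n x y
    rw [← (T n).inner_map_map y (T (-n) x), hinv]
  -- all the norms `‖P e_k‖` agree
  have hle : ∀ k l, ‖P (e l)‖ ≤ ‖P (e k)‖ := by
    intro k l
    obtain ⟨x, hx⟩ := hPmem (e l)
    set n : ℤ := σ l - σ k with hn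
    let y : K := ⟨T (-n) x, hTK (-n) x x.2⟩
    have hy1 : C y k = C x l := by
      rw [hCapply, hCapply]
      show ⟪g (σ k), T (-n) (x : H)⟫_ℂ = _
      rw [hTadj, hT]
      congr 2
      omega
    have hy2 : ‖C y‖ = ‖C x‖ := by
      have h1 : ‖C y‖ ^ 2 = ‖C x‖ ^ 2 := by
        rw [hCnorm, hCnorm, ← Equiv.tsum_eq (Equiv.addRight n) (fun m => ‖⟪(x : H), g m⟫_ℂ‖ ^ 2)]
        refine tsum_congr fun m => ?_
        rw [norm_inner_symm]
        show ‖⟪g m, T (-n) (x : H)⟫_ℂ‖ ^ 2 = _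
        rw [hTadj, hT, norm_inner_symm]
        rfl
      exact (pow_left_inj₀ (norm_nonneg _) (norm_nonneg _) two_ne_zero).1 h1
    have h1 : ‖P (e l)‖ ^ 2 ≤ ‖P (e k)‖ * ‖P (e l)‖ := by
      have h2 : ‖C y k‖ = ‖P (e l)‖ ^ 2 := by
        rw [hy1, hx, hPself, Complex.norm_real, Real.norm_of_nonneg (by positivity)]
      rw [← h2, hPcoord k (C y) ⟨y, rfl⟩]
      refine (norm_inner_le_norm _ _).trans ?_
      rw [hy2, hx]
    rcases eq_or_lt_of_le (norm_nonneg (P (e l))) with h0 | hpos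
    · rw [← h0]; exact norm_nonneg _
    · nlinarith
  have heq : ∀ k l, ‖P (e l)‖ = ‖P (e k)‖ := fun k l => le_antisymm (hle k l) (hle l k)
  -- the backward shift
  have hshift : ∀ x : K, ∃ y : K, ∀ k, C y k = C x (k + 1) := by
    intro x
    obtain ⟨G, hG, -⟩ := exists_extension_norm_eq (𝕜 := ℂ)
      (Submodule.span ℂ (Set.range (g ∘ σ))) ((innerSL ℂ (x : H)).comp V)
    let z : H := (InnerProductSpace.toDual ℂ H).symm G
    refine ⟨⟨K.starProjection z, Submodule.starProjection_apply_mem K z⟩, fun k => ?_⟩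
    rw [hCapply, hCapply]
    have h1 : ⟪K.starProjection z, g (σ k)⟫_ℂ = ⟪(x : H), g (σ (k + 1))⟫_ℂ := by
      rw [Submodule.inner_starProjection_left_eq_right, 
        Submodule.starProjection_eq_self_iff.2 (hgK _)]
      show ⟪(InnerProductSpace.toDual ℂ H).symm G, g (σ k)⟫_ℂ = _
      rw [InnerProductSpace.toDual_symm_apply]
      have h2 := hG ⟨g (σ k), Submodule.subset_span ⟨k, rfl⟩⟩
      rw [← hV k]
      exact h2
    rw [← inner_conj_symm, h1, inner_conj_symm]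
  set p : ℝ := ‖P (e 0)‖ ^ 2 with hp
  have hnorm : ∀ k, ‖P (e k)‖ ^ 2 = p := fun k => by rw [heq 0 k]
  have hzero : ∀ k, p ≠ 0 → (P (e (k + 1))) 0 = 0 := by
    intro k hp0
    obtain ⟨x, hx⟩ := hPmem (e (k + 1))
    obtain ⟨y, hy⟩ := hshift x
    have h1 : ‖C x‖ ^ 2 = ‖C x 0‖ ^ 2 + ‖C y‖ ^ 2 := by
      rw [norm_sq_tsum, norm_sq_tsum, (summable_sq (C x)).tsum_eq_zero_add]
      congr 1
      refine tsum_congr fun k => ?_
      rw [hy]
    have h2 : C y k = ((p : ℝ) : ℂ) := by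
      rw [hy, hx, hPself, hnorm]
    have h3 : p ≤ ‖P (e k)‖ * ‖C y‖ := by
      have h4 := hPcoord k (C y) ⟨y, rfl⟩
      rw [h2] at h4
      have h5 := norm_inner_le_norm (𝕜 := ℂ) (P (e k)) (C y)
      rw [← h4, Complex.norm_real, Real.norm_of_nonneg (by rw [hp]; positivity)] at h5
      exact h5
    have hppos : 0 < p := lt_of_le_of_ne (by rw [hp]; positivity) (Ne.symm hp0)
    have h4 : p ^ 2 ≤ p * ‖C y‖ ^ 2 := by
      calc p ^ 2 ≤ (‖P (e k)‖ * ‖C y‖) ^ 2 := by gcongr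
        _ = p * ‖C y‖ ^ 2 := by rw [mul_pow, hnorm]
    rw [hx, hnorm] at h1
    have h5 : ‖(P (e (k + 1))) 0‖ ^ 2 ≤ 0 := by nlinarith
    have h6 : ‖(P (e (k + 1))) 0‖ = 0 := by
      have := sq_nonneg ‖(P (e (k + 1))) 0‖
      exact pow_eq_zero_iff two_ne_zero |>.1 (le_antisymm h5 this)
    exact norm_eq_zero.1 h6
  have hp01 : p = 0 ∨ p = 1 := by
    by_cases hp0 : p = 0
    · exact Or.inl hp0
    · right
      have h1 : ∀ k, (P (e 0)) (k + 1) = 0 := by
        intro k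
        have h2 := hzero k hp0
        rw [← inner_e 0, ← hPsymm, ← inner_conj_symm, inner_e] at h2
        simpa using h2
      have h2 : ‖P (e 0)‖ ^ 2 = ‖(P (e 0)) 0‖ ^ 2 := by
        rw [norm_sq_tsum, (summable_sq (P (e 0))).tsum_eq_zero_add]
        simp [h1]
      rw [hPself 0, Complex.norm_real, Real.norm_of_nonneg (by positivity), ← hp] at h2
      have h3 : p * (p - 1) = 0 := by nlinarith
      rcases mul_eq_zero.1 h3 with h | h
      · exact absurd h hp0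
      · linarith
  rcases hp01 with hp0 | hp1
  · -- all projections vanish
    have h1 : ∀ k, P (e k) = 0 := fun k => by
      have h2 := hnorm k
      rw [hp0] at h2
      exact norm_eq_zero.1 (pow_eq_zero_iff two_ne_zero |>.1 h2)
    let x0 : K := ⟨g 0, hgK 0⟩
    have h2 : C x0 = 0 := by
      ext k
      rw [hPcoord k (C x0) ⟨x0, rfl⟩, h1]
      simp
    have h3 := hCA x0
    rw [h2, norm_zero] at h3
    have h4 : ‖x0‖ ^ 2 ≤ 0 := by
      have h5 : (0 : ℝ) ^ 2 = 0 := by norm_num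
      rw [h5] at h3
      by_contra hcon
      push Not at hcon
      nlinarith
    have h5 : ‖x0‖ = 0 := pow_eq_zero_iff two_ne_zero |>.1 (le_antisymm h4 (sq_nonneg _))
    have h6 : x0 = 0 := norm_eq_zero.1 h5
    exact hg0 (by simpa [x0] using h6)
  · -- all unit vectors lie in the range
    apply hnR
    have hePR : ∀ k, e k ∈ R := by
      intro k
      have h1 : ‖e k - P (e k)‖ ^ 2 = 0 := by
        have h2 := norm_sub_sq (𝕜 := ℂ) (e k) (P (e k))
        rw [inner_e, hPself, hnorm, norm_e, hp1] at h2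
        rw [h2]
        norm_num
      have h2 : e k - P (e k) = 0 := norm_eq_zero.1 (pow_eq_zero_iff two_ne_zero |>.1 h1)
      rw [sub_eq_zero.1 h2]
      exact hPmem _
    refine ⟨A, B, hA, hB, fun c => ?_⟩
    set w : H := c.sum fun n z => z • g n with hw
    set u : lp (fun _ : ℕ => ℂ) 2 := c.sum fun n z => z • e (σ.symm n) with hu
    have hwK : w ∈ K := Submodule.sum_mem _ fun n _ => Submodule.smul_mem _ _ (hgK n)
    have huR : u ∈ R := Submodule.sum_mem _ fun n _ => Submodule.smul_mem _ _ (hePR _)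
    have hinner : ∀ x : K, ⟪u, C x⟫_ℂ = ⟪w, (x : H)⟫_ℂ := by
      intro x
      rw [hu, hw, Finsupp.sum_inner, Finsupp.sum_inner]
      refine Finsupp.sum_congr fun n _ => ?_
      rw [inner_smul_left, inner_smul_left, inner_e, hCapply, Equiv.apply_symm_apply]
    have huk : ∀ k, u k = c (σ k) := by
      intro k
      rw [← inner_e, hu, Finsupp.inner_sum]
      rw [Finsupp.sum, Finset.sum_eq_single (σ k)]
      · rw [Equiv.symm_apply_apply, inner_smul_right, inner_e]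
        simp [e]
      · intro n _ hn
        rw [inner_smul_right, inner_e, e, lp.single_apply_ne, mul_zero]
        intro h
        exact hn (by rw [h, Equiv.apply_symm_apply])
      · intro h
        rw [Finsupp.notMem_support_iff.1 h, zero_smul, inner_zero_right]
    have hunorm : ‖u‖ ^ 2 = c.sum fun _ z => ‖z‖ ^ 2 := by
      rw [norm_sq_tsum]
      simp only [huk]
      rw [Equiv.tsum_eq σ (fun n => ‖c n‖ ^ 2), Finsupp.sum, tsum_eq_sum]
      intro n hn
      rw [Finsupp.notMem_support_iff.1 hn]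
      simp
    rw [← hunorm]
    constructor
    · obtain ⟨x, hx⟩ := huR
      have h1 := hinner x
      rw [hx, inner_self_eq_norm_sq_to_K] at h1
      have h2 : ‖u‖ ^ 2 ≤ ‖w‖ * ‖x‖ := by
        have h3 := norm_inner_le_norm (𝕜 := ℂ) w (x : H)
        rw [← h1] at h3
        have h4 : ‖((‖u‖ : ℂ)) ^ 2‖ = ‖u‖ ^ 2 := by
          rw [norm_pow, Complex.norm_real, norm_norm]
        rw [← h4]
        exact h3
      have h3 := hCA x
      rw [hx] at h3
      have h3' : A * (‖x‖ * ‖x‖) ≤ ‖u‖ ^ 2 := by rw [← pow_two]; exact h3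
      have h5 : (‖u‖ ^ 2) ^ 2 ≤ ‖w‖ ^ 2 * ‖x‖ ^ 2 := by
        rw [← mul_pow]
        gcongr
      rcases eq_or_lt_of_le (sq_nonneg ‖u‖) with h0 | hpos
      · rw [← h0, mul_zero]; positivity
      · have h6 : A * (‖u‖ ^ 2) * ‖u‖ ^ 2 ≤ ‖w‖ ^ 2 * ‖u‖ ^ 2 := by
          calc A * (‖u‖ ^ 2) * ‖u‖ ^ 2 = A * (‖u‖ ^ 2) ^ 2 := by ring
            _ ≤ A * (‖w‖ ^ 2 * ‖x‖ ^ 2) := by gcongr
            _ = ‖w‖ ^ 2 * (A * ‖x‖ ^ 2) := by ring
            _ ≤ ‖w‖ ^ 2 * ‖u‖ ^ 2 := by gcongr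
        exact le_of_mul_le_mul_right h6 hpos
    · have h1 := hinner ⟨w, hwK⟩
      rw [inner_self_eq_norm_sq_to_K] at h1
      have h2 : ‖w‖ ^ 2 ≤ ‖u‖ * ‖C ⟨w, hwK⟩‖ := by
        have h3 := norm_inner_le_norm (𝕜 := ℂ) u (C ⟨w, hwK⟩)
        rw [h1] at h3
        have h4 : ‖((‖w‖ : ℂ)) ^ 2‖ = ‖w‖ ^ 2 := by
          rw [norm_pow, Complex.norm_real, norm_norm]
        rw [← h4]
        exact h3
      have h3 : ‖C ⟨w, hwK⟩‖ ^ 2 ≤ B * ‖w‖ ^ 2 := hCB ⟨w, hwK⟩
      have h5 : (‖w‖ ^ 2) ^ 2 ≤ ‖u‖ ^ 2 * (B * ‖w‖ ^ 2) := by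
        calc (‖w‖ ^ 2) ^ 2 ≤ (‖u‖ * ‖C ⟨w, hwK⟩‖) ^ 2 := by gcongr
          _ = ‖u‖ ^ 2 * ‖C ⟨w, hwK⟩‖ ^ 2 := by rw [mul_pow]
          _ ≤ ‖u‖ ^ 2 * (B * ‖w‖ ^ 2) := by gcongr
      rcases eq_or_lt_of_le (sq_nonneg ‖w‖) with h0 | hpos
      · rw [← h0]; positivity
      · have h6 : ‖w‖ ^ 2 * ‖w‖ ^ 2 ≤ B * ‖u‖ ^ 2 * ‖w‖ ^ 2 := by nlinarith
        exact le_of_mul_le_mul_right h6 hpos


end abstract

lemma trans_trans (a c : ℝ) (f : Lp ℂ 2 (volume : Measure ℝ)) :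
    trans a (trans c f) = trans (a + c) f := by
  have h := Lp.compMeasurePreserving_comp_apply (p := 2) (E := ℂ) f
    (measurePreserving_sub_right volume c) (measurePreserving_sub_right volume a)
  show Lp.compMeasurePreserving _ _ (Lp.compMeasurePreserving _ _ f) =
    Lp.compMeasurePreserving _ _ f
  rw [← h]
  have hfun : ((fun x : ℝ => x - c) ∘ fun x => x - a) = fun x => x - (a + c) := by
    funext x
    simp only [Function.comp_apply]
    ring
  congr! 2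

lemma trans_zero (f : Lp ℂ 2 (volume : Measure ℝ)) : trans 0 f = f := by
  have h := Lp.compMeasurePreserving_id_apply (p := 2) (E := ℂ) (μb := (volume : Measure ℝ)) f
  rw [← h]
  show Lp.compMeasurePreserving _ _ (Lp.compMeasurePreserving _ _ f) = _
  rw [h]
  conv_rhs => rw [← h]
  have hfun : (fun x : ℝ => x - 0) = id := by
    funext x
    simp
  congr! 2

/-- **No overcomplete frame of translates has an `ℕ₀`-ordering represented by a bounded
operator.** -/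
theorem result (φ : Lp ℂ 2 (volume : Measure ℝ)) (hφ : φ ≠ 0) (b : ℝ) (hb : 0 < b)
    (hframe : IsFrameSequence fun k : ℤ => trans (k * b) φ)
    (hover : ¬ IsRieszSequence fun k : ℤ => trans (k * b) φ) (σ : ℕ ≃ ℤ) :
    ¬ ∃ V : Submodule.span ℂ (Set.range fun k : ℕ => trans (σ k * b) φ) →L[ℂ]
        Lp ℂ 2 (volume : Measure ℝ),
      ∀ k : ℕ, V ⟨trans (σ k * b) φ, Submodule.subset_span ⟨k, rfl⟩⟩
        = trans (σ (k + 1) * b) φ := by
  refine core (fun k : ℤ => trans (k * b) φ) ?_ (fun n => trans (n * b)) ?_ ?_ hframe hover σ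
  · simp only [Int.cast_zero, zero_mul, trans_zero]
    exact hφ
  · intro n m
    rw [trans_trans]
    congr 2
    push_cast
    ring
  · intro n x
    rw [trans_trans]
    have : (n : ℝ) * b + ((-n : ℤ) : ℝ) * b = 0 := by push_cast; ring
    rw [this, trans_zero]


end Pool.Agent.Results.MP_909498_an.NoBoundedOrbit
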